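import Pool.Agent.Lib.MP_004e29_lc.PolyRed

/-!
# The Euclidean Gromov-Hausdorff distance problem is hard for the third level

All definitions of the statement are in `Pool/Agent/Lib/MP_004e29_lc/Defs.lean`.
-/

namespace Pool.Agent.Results.MP_004e29_lc.Complete

open Turing Pool.Agent.Lib.MP_004e29_lc

/-- **GHD is hard for the class of the pattern exists-forall-exists (hence complete).** There is a
function `r`, computable in polynomial time by a Turing machine (of Mathlib), which maps every
bounded sentence `∃ x ∈ [-1,1]^k ∀ y ∈ [-1,1]^m ∃ z ∈ [-1,1]^l, F (x, y, z) = 0` (`F` a polynomial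
with integer coefficients) to an instance `(A, B, d)` of GHD, such that the sentence is true if and
only if `d_GH(A, B) ≤ d`. Moreover `A` and `B` are nonempty and compact and `d` is a positive
integer. -/
theorem result : ∃ r : Sent → Inst,
    Nonempty (TM2ComputableInPolyTime Sent.encode Inst.encode r) ∧
    ∀ S : Sent, (S.IsTrue ↔ (r S).InGHD) ∧
      (Sol (r S).n (r S).A).Nonempty ∧ IsCompact (Sol (r S).n (r S).A) ∧
      (Sol (r S).n (r S).B).Nonempty ∧ IsCompact (Sol (r S).n (r S).B) ∧
      ∃ e : ℕ, 0 < e ∧ (r S).d = e := by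
  refine ⟨red, tm2_red, fun S => ⟨red_correct S, ?_, isCompact_setA, ?_, isCompact_setB,
    S.l + 1, Nat.succ_pos _, rfl⟩⟩
  · refine ⟨(rad S.k S.m S.l (S.k + S.m + S.l) : ℝ) •
      uv (nN S.k S.m S.l) (S.k + S.m + S.l),
      mem_setA.2 (Or.inr (Or.inr ⟨S.k + S.m + S.l, by unfold nT; omega, PS_uv ?_ ?_ _⟩))⟩
    · unfold nN nT; omega
    · exact blk_eq_of_lt (by unfold nT; omega)
  · have h : 0 < nN S.k S.m S.l := by unfold nN nT; omega
    exact ⟨_, uv_mem_setB (F := S.F) h⟩

end Pool.Agent.Results.MP_004e29_lc.Complete
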